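import Mathlib

namespace Pool.Agent.Results.MP_b31126_co.DyadicCover

open scoped ENNReal
open Classical

/-- `A` contains an axis-parallel square. -/
def HasSquare (A : Set (ℤ × ℤ)) : Prop :=
  ∃ x y a : ℤ, a ≠ 0 ∧ (x, y) ∈ A ∧ (x + a, y) ∈ A ∧ (x, y + a) ∈ A ∧ (x + a, y + a) ∈ A

/-- The sum `S(A)` of `1/(x^2+y^2)` over the points of `A` other than the origin. -/
noncomputable def S (A : Set (ℤ × ℤ)) : ℝ≥0∞ :=
  ∑' p : ℤ × ℤ, if p ∈ A ∧ p ≠ (0, 0) then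
    ENNReal.ofReal (1 / ((p.1 : ℝ) ^ 2 + (p.2 : ℝ) ^ 2)) else 0

/-- Any two rows (equivalently any two columns) of `A` are comparable under inclusion. -/
def Chain (A : Set (ℤ × ℤ)) : Prop :=
  ∀ x y x' y' : ℤ, (x, y) ∈ A → (x', y') ∈ A → (x, y') ∈ A ∨ (x', y) ∈ A

/-- The part of `A` in the dyadic annulus `2^j ≤ max(|x|,|y|) < 2^(j+1)`. -/
def Ann (A : Set (ℤ × ℤ)) (j : ℕ) : Set (ℤ × ℤ) :=
  {p | p ∈ A ∧ (2 : ℤ) ^ j ≤ max |p.1| |p.2| ∧ max |p.1| |p.2| < 2 ^ (j + 1)}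

lemma HasSquare.mono {A B : Set (ℤ × ℤ)} (h : A ⊆ B) (hA : HasSquare A) : HasSquare B := by
  obtain ⟨x, y, a, ha, h1, h2, h3, h4⟩ := hA
  exact ⟨x, y, a, ha, h h1, h h2, h h3, h h4⟩

/-- The interval `[-2^(j+1), 2^(j+1)]`. -/
noncomputable def I (j : ℕ) : Finset ℤ := Finset.Icc (-(2 ^ (j + 1) : ℤ)) (2 ^ (j + 1))

lemma I_card (j : ℕ) : (I j).card = 4 * 2 ^ j + 1 := by
  unfold I
  rw [Int.card_Icc]
  have : (2 : ℤ) ^ (j + 1) + 1 - -(2 ^ (j + 1)) = ((4 * 2 ^ j + 1 : ℕ) : ℤ) := by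
    push_cast
    ring
  rw [this]
  rfl

/-- The dyadic annulus as a finite set. -/
noncomputable def R (j : ℕ) : Finset (ℤ × ℤ) :=
  (I j ×ˢ I j).filter
    (fun p => (2 : ℤ) ^ j ≤ max |p.1| |p.2| ∧ max |p.1| |p.2| < 2 ^ (j + 1))

lemma prodCard (A : Set (ℤ × ℤ)) (hs : ¬ HasSquare A) (j : ℕ) (X K : Finset ℤ)
    (hX : X ⊆ I j) (hK : K ⊆ I j) (hXK : ∀ x ∈ X, ∀ y ∈ K, (x, y) ∈ A) :
    X.card * K.card ≤ 9 * 2 ^ j := by
  have hinj : Set.InjOn (fun p : ℤ × ℤ => p.1 + p.2) (X ×ˢ K : Finset (ℤ × ℤ)) := by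
    rintro ⟨a, b⟩ hab ⟨a', b'⟩ hab' h
    rw [Finset.mem_coe, Finset.mem_product] at hab hab'
    simp only at hab hab' h
    by_contra hcon
    have hne : a ≠ a' := by
      intro haa
      apply hcon
      subst haa
      have : b = b' := by linarith
      subst this
      rfl
    apply hs
    refine ⟨a, b', a' - a, sub_ne_zero.2 (Ne.symm hne), hXK a hab.1 b' hab'.2, ?_, ?_, ?_⟩
    · have : a + (a' - a) = a' := by ring
      rw [this]
      exact hXK a' hab'.1 b' hab'.2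
    · have : b' + (a' - a) = b := by linarith
      rw [this]
      exact hXK a hab.1 b hab.2
    · have h1 : a + (a' - a) = a' := by ring
      have h2 : b' + (a' - a) = b := by linarith
      rw [h1, h2]
      exact hXK a' hab'.1 b hab.2
  have hmaps : ∀ p ∈ (X ×ˢ K : Finset (ℤ × ℤ)),
      p.1 + p.2 ∈ Finset.Icc (-(2 ^ (j + 2) : ℤ)) (2 ^ (j + 2)) := by
    rintro ⟨a, b⟩ hab
    rw [Finset.mem_product] at hab
    have h1 := Finset.mem_Icc.1 (hX hab.1)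
    have h2 := Finset.mem_Icc.1 (hK hab.2)
    have h3 : (2 : ℤ) ^ (j + 2) = 2 * 2 ^ (j + 1) := by ring
    rw [Finset.mem_Icc]
    simp only at h1 h2 ⊢
    constructor <;> linarith
  have hle := Finset.card_le_card_of_injOn (fun p : ℤ × ℤ => p.1 + p.2) hmaps hinj
  rw [Finset.card_product, Int.card_Icc] at hle
  have h5 : (2 : ℤ) ^ (j + 2) + 1 - -(2 ^ (j + 2)) = ((8 * 2 ^ j + 1 : ℕ) : ℤ) := by
    push_cast
    ring
  rw [h5, Int.toNat_natCast] at hle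
  have h6 : 1 ≤ 2 ^ j := Nat.one_le_pow _ _ (by norm_num)
  omega

lemma Zcard (A : Set (ℤ × ℤ)) (hc : Chain A) (hs : ¬ HasSquare A) (j k : ℕ) :
    k * ((I j).filter (fun x => k ≤ ((I j).filter (fun y => (x, y) ∈ A)).card)).card
      ≤ 9 * 2 ^ j := by
  set Z := (I j).filter (fun x => k ≤ ((I j).filter (fun y => (x, y) ∈ A)).card) with hZ
  by_cases hne : Z.Nonempty
  · obtain ⟨x0, hx0, hmin⟩ := Finset.exists_min_image Z
      (fun x => ((I j).filter (fun y => (x, y) ∈ A)).card) hne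
    set K := (I j).filter (fun y => (x0, y) ∈ A) with hK
    have hsub : ∀ x ∈ Z, ∀ y ∈ K, (x, y) ∈ A := by
      intro x hx
      by_cases h1 : K ⊆ (I j).filter (fun y => (x, y) ∈ A)
      · intro y hy
        exact (Finset.mem_filter.1 (h1 hy)).2
      · have h2 : (I j).filter (fun y => (x, y) ∈ A) ⊆ K := by
          intro y' hy'
          rw [Finset.not_subset] at h1
          obtain ⟨y, hyK, hyn⟩ := h1
          rw [hK, Finset.mem_filter] at hyK
          rw [Finset.mem_filter] at hy'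
          rcases hc x0 y x y' hyK.2 hy'.2 with h | h
          · exact Finset.mem_filter.2 ⟨hy'.1, h⟩
          · exact absurd (Finset.mem_filter.2 ⟨hyK.1, h⟩) hyn
        have h3 := Finset.eq_of_subset_of_card_le h2 (hmin x hx)
        exact absurd (h3 ▸ Finset.Subset.refl _) h1
    have hKk : k ≤ K.card := (Finset.mem_filter.1 hx0).2
    calc k * Z.card ≤ K.card * Z.card := Nat.mul_le_mul_right _ hKk
      _ = Z.card * K.card := Nat.mul_comm _ _
      _ ≤ _ := prodCard A hs j Z K (Finset.filter_subset _ _) (Finset.filter_subset _ _) hsub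
  · rw [Finset.not_nonempty_iff_eq_empty] at hne
    rw [hne]
    simp

lemma card_eq_sum (n f : ℕ) (hf : f ≤ n) :
    f = ∑ k ∈ Finset.Icc 1 n, (if k ≤ f then 1 else 0) := by
  rw [← Finset.sum_filter, Finset.sum_const, smul_eq_mul, mul_one]
  have : (Finset.Icc 1 n).filter (fun k => k ≤ f) = Finset.Icc 1 f := by
    ext k
    simp only [Finset.mem_filter, Finset.mem_Icc]
    omega
  rw [this, Nat.card_Icc]
  omega

lemma harm (j n : ℕ) (hn : n ≤ 9 * 4 ^ j) :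
    ∑ k ∈ Finset.Icc 1 n, 1 / (k : ℝ) ≤ 4 * ((j : ℝ) + 1) := by
  have h1 : ∑ k ∈ Finset.Icc 1 n, 1 / (k : ℝ) = (harmonic n : ℝ) := by
    rw [harmonic_eq_sum_Icc]
    push_cast
    refine Finset.sum_congr rfl fun k _ => ?_
    rw [one_div]
  rw [h1]
  have h2 := harmonic_le_one_add_log n
  have h3 : Real.log n ≤ 3 + 2 * (j : ℝ) := by
    rcases Nat.eq_zero_or_pos n with h0 | h0
    · subst h0
      simp
      positivity
    · have h4 : Real.log n ≤ Real.log ((9 : ℝ) * 4 ^ j) := by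
        apply Real.log_le_log (by exact_mod_cast h0)
        exact_mod_cast hn
      have h5 : Real.log ((9 : ℝ) * 4 ^ j) = Real.log 9 + j * Real.log 4 := by
        rw [Real.log_mul (by norm_num) (by positivity), Real.log_pow]
      have h6 : Real.log 9 ≤ 3 := by
        rw [Real.log_le_iff_le_exp (by norm_num)]
        have := Real.exp_one_gt_d9
        have h7 : Real.exp 3 = Real.exp 1 ^ 3 := by rw [← Real.exp_nat_mul]; norm_num
        rw [h7]
        nlinarith [pow_le_pow_left₀ (by norm_num : (0:ℝ) ≤ 2.7)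
          (by linarith : (2.7:ℝ) ≤ Real.exp 1) 3]
      have h8 : Real.log 4 ≤ 2 := by
        rw [Real.log_le_iff_le_exp (by norm_num)]
        have := Real.exp_one_gt_d9
        have h7 : Real.exp 2 = Real.exp 1 ^ 2 := by rw [← Real.exp_nat_mul]; norm_num
        rw [h7]
        nlinarith [pow_le_pow_left₀ (by norm_num : (0:ℝ) ≤ 2.7)
          (by linarith : (2.7:ℝ) ≤ Real.exp 1) 2]
      have h9 : (j : ℝ) * Real.log 4 ≤ j * 2 := by gcongr
      linarith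
  linarith

/-- The points of `A` in the annulus. -/
noncomputable def P (A : Set (ℤ × ℤ)) (j : ℕ) : Finset (ℤ × ℤ) := (R j).filter (fun p => p ∈ A)

lemma mem_P {A : Set (ℤ × ℤ)} {j : ℕ} {p : ℤ × ℤ} : p ∈ P A j ↔ p ∈ R j ∧ p ∈ A := by
  unfold P
  exact Finset.mem_filter

/-- The number of points of `A` in the annulus. -/
noncomputable def N (A : Set (ℤ × ℤ)) (j : ℕ) : ℕ := (P A j).card

lemma N_chain (A : Set (ℤ × ℤ)) (hc : Chain A) (hs : ¬ HasSquare A) (j : ℕ) :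
    (N A j : ℝ) ≤ 36 * (((j : ℝ) + 1) * 2 ^ j) := by
  have h1 : N A j ≤ ∑ x ∈ I j, ((I j).filter (fun y => (x, y) ∈ A)).card := by
    unfold N P
    calc ((R j).filter (fun p => p ∈ A)).card
        ≤ ((I j ×ˢ I j).filter (fun p => p ∈ A)).card := by
          apply Finset.card_le_card
          apply Finset.filter_subset_filter
          exact Finset.filter_subset _ _
      _ = ∑ p ∈ I j ×ˢ I j, (if p ∈ A then 1 else 0) := by
          rw [Finset.card_filter]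
      _ = ∑ x ∈ I j, ∑ y ∈ I j, (if (x, y) ∈ A then 1 else 0) := by
          rw [Finset.sum_product]
      _ = _ := by
          refine Finset.sum_congr rfl fun x _ => ?_
          rw [Finset.card_filter]
  have h2 : ∑ x ∈ I j, ((I j).filter (fun y => (x, y) ∈ A)).card =
      ∑ k ∈ Finset.Icc 1 (I j).card,
        ((I j).filter (fun x => k ≤ ((I j).filter (fun y => (x, y) ∈ A)).card)).card := by
    calc ∑ x ∈ I j, ((I j).filter (fun y => (x, y) ∈ A)).card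
        = ∑ x ∈ I j, ∑ k ∈ Finset.Icc 1 (I j).card,
            (if k ≤ ((I j).filter (fun y => (x, y) ∈ A)).card then 1 else 0) :=
          Finset.sum_congr rfl fun x _ => card_eq_sum _ _ (Finset.card_filter_le _ _)
      _ = _ := by
          rw [Finset.sum_comm]
          refine Finset.sum_congr rfl fun k _ => ?_
          rw [Finset.card_filter]
  have h3 : ∀ k ∈ Finset.Icc 1 (I j).card,
      ((((I j).filter (fun x => k ≤ ((I j).filter (fun y => (x, y) ∈ A)).card)).card : ℕ) : ℝ)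
        ≤ 9 * 2 ^ j * (1 / (k : ℝ)) := by
    intro k hk
    have hk1 : (0 : ℝ) < k := by exact_mod_cast (Finset.mem_Icc.1 hk).1
    have h := Zcard A hc hs j k
    have h' : (k : ℝ) *
        ((((I j).filter (fun x => k ≤ ((I j).filter (fun y => (x, y) ∈ A)).card)).card : ℕ) : ℝ)
        ≤ 9 * 2 ^ j := by exact_mod_cast h
    rw [mul_one_div, le_div_iff₀ hk1]
    linarith
  have h4 : (I j).card ≤ 9 * 4 ^ j := by
    rw [I_card]
    have : 2 ^ j ≤ 4 ^ j := Nat.pow_le_pow_left (by norm_num) j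
    have h6 : 1 ≤ 2 ^ j := Nat.one_le_pow _ _ (by norm_num)
    omega
  calc (N A j : ℝ) ≤ ((∑ k ∈ Finset.Icc 1 (I j).card,
        ((I j).filter (fun x => k ≤ ((I j).filter (fun y => (x, y) ∈ A)).card)).card : ℕ) : ℝ) := by
        exact_mod_cast h2 ▸ h1
    _ = ∑ k ∈ Finset.Icc 1 (I j).card,
        ((((I j).filter (fun x => k ≤ ((I j).filter (fun y => (x, y) ∈ A)).card)).card : ℕ) : ℝ) := by
        push_cast
        rfl
    _ ≤ ∑ k ∈ Finset.Icc 1 (I j).card, 9 * 2 ^ j * (1 / (k : ℝ)) := Finset.sum_le_sum h3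
    _ = 9 * 2 ^ j * ∑ k ∈ Finset.Icc 1 (I j).card, 1 / (k : ℝ) := by rw [Finset.mul_sum]
    _ ≤ 9 * 2 ^ j * (4 * ((j : ℝ) + 1)) := by
        gcongr
        exact harm j _ h4
    _ = _ := by ring

lemma N_prod (X Y : Set ℤ) (hs : ¬ HasSquare (X ×ˢ Y)) (j : ℕ) :
    (N (X ×ˢ Y) j : ℝ) ≤ 9 * 2 ^ j := by
  have h1 := prodCard (X ×ˢ Y) hs j ((I j).filter (fun x => x ∈ X)) ((I j).filter (fun y => y ∈ Y))
    (Finset.filter_subset _ _) (Finset.filter_subset _ _)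
    (fun x hx y hy => Set.mk_mem_prod (Finset.mem_filter.1 hx).2 (Finset.mem_filter.1 hy).2)
  have h2 : N (X ×ˢ Y) j ≤
      ((I j).filter (fun x => x ∈ X)).card * ((I j).filter (fun y => y ∈ Y)).card := by
    rw [← Finset.card_product]
    apply Finset.card_le_card
    rintro ⟨x, y⟩ hp
    have hp2 := mem_P.1 hp
    have h3 := Finset.mem_product.1 (Finset.mem_filter.1 hp2.1).1
    rw [Finset.mem_product]
    exact ⟨Finset.mem_filter.2 ⟨h3.1, hp2.2.1⟩, Finset.mem_filter.2 ⟨h3.2, hp2.2.2⟩⟩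
  exact_mod_cast h2.trans h1

lemma mem_R {p : ℤ × ℤ} (hp : p ≠ (0, 0)) :
    p ∈ R (Nat.log 2 (max p.1.natAbs p.2.natAbs)) := by
  set m := max p.1.natAbs p.2.natAbs with hm
  have hm0 : m ≠ 0 := by
    intro h0
    apply hp
    have h1 : p.1.natAbs = 0 := by omega
    have h2 : p.2.natAbs = 0 := by omega
    ext
    · exact Int.natAbs_eq_zero.1 h1
    · exact Int.natAbs_eq_zero.1 h2
  have hlo := Nat.pow_log_le_self 2 hm0
  have hhi := Nat.lt_pow_succ_log_self (b := 2) (by norm_num) m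
  have hmax : max |p.1| |p.2| = (m : ℤ) := by
    rw [hm, Int.abs_eq_natAbs, Int.abs_eq_natAbs]
    push_cast
    rfl
  have hlo' : (2 : ℤ) ^ Nat.log 2 m ≤ (m : ℤ) := by exact_mod_cast hlo
  have hhi' : (m : ℤ) < 2 ^ (Nat.log 2 m + 1) := by exact_mod_cast hhi
  have hx : |p.1| ≤ (m : ℤ) := hmax ▸ le_max_left _ _
  have hy : |p.2| ≤ (m : ℤ) := hmax ▸ le_max_right _ _
  unfold R I
  rw [Finset.mem_filter, Finset.mem_product, Finset.mem_Icc, Finset.mem_Icc, hmax]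
  have hx2 : -(m : ℤ) ≤ p.1 := (abs_le.1 hx).1
  have hx3 : p.1 ≤ (m : ℤ) := (abs_le.1 hx).2
  have hy2 : -(m : ℤ) ≤ p.2 := (abs_le.1 hy).1
  have hy3 : p.2 ≤ (m : ℤ) := (abs_le.1 hy).2
  have hb1 : -(2 ^ (Nat.log 2 m + 1) : ℤ) ≤ p.1 := by omega
  have hb2 : p.1 ≤ (2 ^ (Nat.log 2 m + 1) : ℤ) := by omega
  have hb3 : -(2 ^ (Nat.log 2 m + 1) : ℤ) ≤ p.2 := by omega
  have hb4 : p.2 ≤ (2 ^ (Nat.log 2 m + 1) : ℤ) := by omega
  exact ⟨⟨⟨hb1, hb2⟩, ⟨hb3, hb4⟩⟩, hlo', hhi'⟩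

lemma R_weight {p : ℤ × ℤ} {j : ℕ} (hp : p ∈ R j) :
    1 / ((p.1 : ℝ) ^ 2 + (p.2 : ℝ) ^ 2) ≤ 1 / 4 ^ j := by
  have h := (Finset.mem_filter.1 hp).2.1
  have h1 : (2 : ℝ) ^ j ≤ max |(p.1 : ℝ)| |(p.2 : ℝ)| := by exact_mod_cast h
  have h4 : (4 : ℝ) ^ j = (2 ^ j) ^ 2 := by rw [← pow_mul, mul_comm j 2, pow_mul]; norm_num
  apply one_div_le_one_div_of_le (by positivity)
  rw [h4]
  rcases le_max_iff.1 h1 with h2 | h2
  · have : ((2 : ℝ) ^ j) ^ 2 ≤ |(p.1 : ℝ)| ^ 2 := by gcongr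
    rw [sq_abs] at this
    nlinarith [sq_nonneg (p.2 : ℝ)]
  · have : ((2 : ℝ) ^ j) ^ 2 ≤ |(p.2 : ℝ)| ^ 2 := by gcongr
    rw [sq_abs] at this
    nlinarith [sq_nonneg (p.1 : ℝ)]

lemma S_le (A : Set (ℤ × ℤ)) :
    S A ≤ ∑' j : ℕ, ENNReal.ofReal ((N A j : ℝ) * (1 / 4 ^ j)) := by
  unfold S
  calc ∑' p : ℤ × ℤ, (if p ∈ A ∧ p ≠ (0, 0) then
        ENNReal.ofReal (1 / ((p.1 : ℝ) ^ 2 + (p.2 : ℝ) ^ 2)) else 0)
      ≤ ∑' p : ℤ × ℤ, ∑' j : ℕ,
          (if p ∈ P A j then ENNReal.ofReal (1 / 4 ^ j) else 0) := by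
        refine ENNReal.tsum_le_tsum fun p => ?_
        split_ifs with h
        · refine le_trans ?_ (ENNReal.le_tsum (Nat.log 2 (max p.1.natAbs p.2.natAbs)))
          rw [if_pos (mem_P.2 ⟨mem_R h.2, h.1⟩)]
          exact ENNReal.ofReal_le_ofReal (R_weight (mem_R h.2))
        · exact zero_le
    _ = ∑' j : ℕ, ∑' p : ℤ × ℤ,
          (if p ∈ P A j then ENNReal.ofReal (1 / 4 ^ j) else 0) :=
        ENNReal.tsum_comm
    _ = _ := by
        refine tsum_congr fun j => ?_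
        rw [tsum_eq_sum (s := P A j) (by intro b hb; rw [if_neg hb])]
        rw [Finset.sum_congr rfl (fun p hp => if_pos hp), Finset.sum_const, nsmul_eq_mul,
          ENNReal.ofReal_mul (by positivity), ENNReal.ofReal_natCast]
        rfl

lemma mem_R_iff_Ann {A : Set (ℤ × ℤ)} {p : ℤ × ℤ} {j : ℕ} (hp : p ∈ R j) (hA : p ∈ A) :
    p ∈ Ann A j := ⟨hA, (Finset.mem_filter.1 hp).2⟩

lemma N_union (A : Set (ℤ × ℤ)) (j t : ℕ) (B : Fin t → Set (ℤ × ℤ)) (u : ℕ)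
    (C : Fin u → Set (ℤ × ℤ)) (hB : Ann A j = (⋃ i, B i) ∪ ⋃ i, C i) :
    N A j ≤ ∑ i, N (B i) j + ∑ i, N (C i) j := by
  have hsub : P A j ⊆
      (Finset.univ.biUnion fun i => P (B i) j) ∪ (Finset.univ.biUnion fun i => P (C i) j) := by
    intro p hp
    rw [mem_P] at hp
    have h := mem_R_iff_Ann hp.1 hp.2
    rw [hB] at h
    rcases h with h | h
    · obtain ⟨i, hi⟩ := Set.mem_iUnion.1 h
      exact Finset.mem_union_left _ (Finset.mem_biUnion.2
        ⟨i, Finset.mem_univ i, mem_P.2 ⟨hp.1, hi⟩⟩)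
    · obtain ⟨i, hi⟩ := Set.mem_iUnion.1 h
      exact Finset.mem_union_right _ (Finset.mem_biUnion.2
        ⟨i, Finset.mem_univ i, mem_P.2 ⟨hp.1, hi⟩⟩)
  unfold N
  refine (Finset.card_le_card hsub).trans ((Finset.card_union_le _ _).trans ?_)
  exact Nat.add_le_add Finset.card_biUnion_le Finset.card_biUnion_le

/-- Let `A ⊆ ℤ²`. Suppose that for every `j` the part of `A` in the dyadic annulus
`2^j ≤ max(|x|,|y|) < 2^(j+1)` is the union of `t j` sets whose rows are pairwise comparable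
under inclusion and `u j` product sets, where `∑ ((j+1) (t j) + u j) / 2^j < ∞`. If
`S(A) = ∞` then `A` contains an axis-parallel square. -/
theorem result : ∀ (A : Set (ℤ × ℤ)) (t u : ℕ → ℕ),
    Summable (fun j : ℕ => (((j : ℝ) + 1) * (t j : ℝ) + (u j : ℝ)) / 2 ^ j) →
    (∀ j, ∃ (B : Fin (t j) → Set (ℤ × ℤ)) (X Y : Fin (u j) → Set ℤ), (∀ i, Chain (B i)) ∧
      Ann A j = (⋃ i, B i) ∪ ⋃ i, X i ×ˢ Y i) →
    S A = ⊤ → HasSquare A := by
  intro A t u hsum hcov hS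
  by_contra hs
  have hle : ∀ j, (N A j : ℝ) * (1 / 4 ^ j) ≤
      36 * ((((j : ℝ) + 1) * (t j : ℝ) + (u j : ℝ)) / 2 ^ j) := by
    intro j
    obtain ⟨B, X, Y, hch, hun⟩ := hcov j
    have hsubA : ∀ p, p ∈ Ann A j → p ∈ A := fun p hp => hp.1
    have hB : ∀ i, B i ⊆ A := fun i p hp => hsubA p (by
      rw [hun]; exact Or.inl (Set.mem_iUnion.2 ⟨i, hp⟩))
    have hC : ∀ i, X i ×ˢ Y i ⊆ A := fun i p hp => hsubA p (by
      rw [hun]; exact Or.inr (Set.mem_iUnion.2 ⟨i, hp⟩))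
    have h1 := N_union A j (t j) B (u j) (fun i => X i ×ˢ Y i) hun
    have h2 : (N A j : ℝ) ≤ ∑ i, (N (B i) j : ℝ) + ∑ i, (N (X i ×ˢ Y i) j : ℝ) := by
      exact_mod_cast h1
    have h3 : ∑ i, (N (B i) j : ℝ) ≤ (t j : ℝ) * (36 * (((j : ℝ) + 1) * 2 ^ j)) := by
      calc ∑ i, (N (B i) j : ℝ) ≤ ∑ _i : Fin (t j), 36 * (((j : ℝ) + 1) * 2 ^ j) :=
            Finset.sum_le_sum fun i _ => N_chain (B i) (hch i) (fun h => hs (h.mono (hB i))) j
        _ = _ := by simp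
    have h4 : ∑ i, (N (X i ×ˢ Y i) j : ℝ) ≤ (u j : ℝ) * (9 * 2 ^ j) := by
      calc ∑ i, (N (X i ×ˢ Y i) j : ℝ) ≤ ∑ _i : Fin (u j), (9 * 2 ^ j : ℝ) :=
            Finset.sum_le_sum fun i _ => N_prod (X i) (Y i) (fun h => hs (h.mono (hC i))) j
        _ = _ := by simp
    have h5 : (N A j : ℝ) ≤ 36 * ((((j : ℝ) + 1) * (t j : ℝ) + (u j : ℝ))) * 2 ^ j := by
      have h6 : (0 : ℝ) ≤ (u j : ℝ) * 2 ^ j := by positivity
      nlinarith
    have h7 : (4 : ℝ) ^ j = 2 ^ j * 2 ^ j := by rw [← mul_pow]; norm_num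
    rw [h7]
    have h8 : (0 : ℝ) < 2 ^ j := by positivity
    calc (N A j : ℝ) * (1 / (2 ^ j * 2 ^ j))
        ≤ (36 * ((((j : ℝ) + 1) * (t j : ℝ) + (u j : ℝ))) * 2 ^ j) * (1 / (2 ^ j * 2 ^ j)) := by
          gcongr
      _ = _ := by field_simp
  have hfin : ∑' j : ℕ, ENNReal.ofReal ((N A j : ℝ) * (1 / 4 ^ j)) ≠ ⊤ := by
    apply Summable.tsum_ofReal_ne_top
    exact Summable.of_nonneg_of_le (fun j => by positivity) hle (hsum.mul_left 36)
  exact hfin (top_le_iff.1 (hS ▸ S_le A))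

end Pool.Agent.Results.MP_b31126_co.DyadicCover
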